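import Pool.Agent.X37.FE.Stm

set_option autoImplicit false

namespace Pool.Agent.X104.FE.EXP

open MeasureTheory Set Filter Topology RealInnerProductSpace Pool.Agent.X37.FE

theorem gen {𝔸 : Type*} [NormedRing 𝔸] [NormedAlgebra ℝ 𝔸] [CompleteSpace 𝔸] (x : 𝔸) :
    ∃ E : ℝ → 𝔸, E 0 = 1 ∧ (∀ t, HasDerivAt E (x * E t) t) ∧
      ∀ y, Commute y x → ∀ t, Commute y (E t) := by
  refine ⟨fun t => NormedSpace.exp (t • x), ?_, fun t => hasDerivAt_exp_smul_const' x t,
    fun y hy t => (hy.smul_right t).exp_right⟩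
  simp only []
  rw [zero_smul, NormedSpace.exp_zero]

theorem t (H : Type*) [NormedAddCommGroup H] [InnerProductSpace ℝ H] [CompleteSpace H] :
    S_EXP H := by
  intro L c
  set M : H × H →L[ℝ] H × H := (ContinuousLinearMap.snd ℝ H H).prod
    (-(c • ContinuousLinearMap.snd ℝ H H) - L.comp (ContinuousLinearMap.fst ℝ H H)) with hM
  obtain ⟨E, hE0, hE1, hEc⟩ := gen M
  have hEd : ∀ (z : H × H) (t : ℝ), HasDerivAt (fun s => E s z) (M (E t z)) t := by
    intro z t
    have h2 := (hE1 t).clm_apply (hasDerivAt_const t z)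
    simpa using h2
  have hMa : ∀ z : H × H, M z = (z.2, -(c • z.2) - L z.1) := by
    intro z; rfl
  refine ⟨fun t => (ContinuousLinearMap.fst ℝ H H).comp ((E t).comp (ContinuousLinearMap.inr ℝ H H)),
    fun t => (ContinuousLinearMap.snd ℝ H H).comp ((E t).comp (ContinuousLinearMap.inr ℝ H H)),
    ?_, ?_, ?_, ?_, ?_⟩
  · ext x; simp [hE0]
  · ext x; simp [hE0]
  · intro x t
    have h := (hEd (0, x) t).fst
    rw [hMa] at h
    exact h
  · intro x t
    have h := (hEd (0, x) t).snd
    rw [hMa] at h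
    exact h
  · intro M' hM' t x
    set N : H × H →L[ℝ] H × H := M'.prodMap M' with hN
    have hc : Commute N M := by
      refine ContinuousLinearMap.ext fun z => ?_
      show N (M z) = M (N z)
      rw [hMa, hMa]
      show (M' z.2, M' (-(c • z.2) - L z.1)) = (M' z.2, -(c • M' z.2) - L (M' z.1))
      rw [map_sub, map_neg, map_smul, hM']
    have hc2 : Commute N (E t) := hEc N hc t
    have h3 : N (E t (0, x)) = E t (N (0, x)) := by
      have := congrArg (fun T : H × H →L[ℝ] H × H => T (0, x)) hc2.eq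
      exact this
    have h4 : N (0, x) = (0, M' x) := by
      show (M' 0, M' x) = _
      rw [map_zero]
    rw [h4] at h3
    exact ⟨congrArg Prod.fst h3, congrArg Prod.snd h3⟩

end Pool.Agent.X104.FE.EXP
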